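import Pool.Agent.V11172.PT.Cnt3

set_option autoImplicit false

/-!
# Even values of linear patterns of the partition function (MP_ebc808_nt)

Let `s(n) = ∑_{l ≤ L} c_l p(n + l)` be any linear pattern modulo 2. For every `K`, every `b` and every
residue `ρ` modulo `2 ^ b`, at least `K √x` of the integers `n ≤ x` with `n ≡ ρ (mod 2 ^ b)` satisfy
`s(n) = 0`, for all large `x`; for instance `p(n)` and `p(n + 1)` have the same parity for more than
`K √x` of the `n ≤ x`.

The method is described in `Results/MP_a3366f_nt/EvenPatterns` (several multipartition functions).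
-/

namespace Pool.Agent.Results.MP_ebc808_nt.EvenPatterns

theorem result (L : ℕ) (c : Fin (L + 1) → ZMod 2) (b ρ : ℕ) (K : ℝ) :
    ∃ x0 : ℕ, ∀ x : ℕ, x0 ≤ x → K * Real.sqrt x ≤ (((Finset.range (x + 1)).filter fun n =>
      n % 2 ^ b = ρ % 2 ^ b ∧
        ∑ l : Fin (L + 1), c l * (Fintype.card (Nat.Partition (n + l)) : ZMod 2) = 0).card : ℝ) := by
  obtain ⟨x0, h0⟩ := Pool.Agent.V11172.PT.main_even {1} 1 (Or.inl rfl) (by
    intro t ht
    rw [Finset.mem_singleton.1 ht]
    exact ⟨odd_one, rfl⟩) L (fun _ => c) b ρ K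
  refine ⟨x0, fun x hx => (h0 x hx).trans (le_of_eq ?_)⟩
  congr 2
  refine Finset.filter_congr fun n _ => ?_
  unfold Pool.Agent.V11172.PT.pat'
  rw [Finset.sum_singleton]
  simp only [pow_one, Pool.Agent.TH693.PP.P, PowerSeries.coeff_mk]

end Pool.Agent.Results.MP_ebc808_nt.EvenPatterns
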