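import Pool.Agent.V11172.PT.Frac

set_option autoImplicit false

/-!
# Long runs in linear patterns of functions algebraic over `F_2(X, P)` never end (MP_ebc808_nt)

Let `P` be the generating function of the number of partitions modulo 2 and let `f_1, …, f_k` be
power series over `F_2` that are algebraic over the field `F_2(X, P)`, with coefficients `f_j(n)`.
There is a constant `C` such that for every linear pattern `s(n) = ∑_j ∑_{i ≤ L} c(j, i) f_j(n + i)`
and every `A`: if `s` is constant on `[A, C (A + L + 1)]`, then `s` is constant on `[A, ∞)`. So every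
linear recurrence over `F_2` between the sequences `f_j` which holds on `[A, C (A + L + 1)]` holds for
all `n ≥ A`.

Examples of `f_j`: `P` itself, all 2-automatic sequences (the series algebraic over `F_2(X)`, by
Christol), their convolutions with `p(n)`, `1 / P`, the multipartition functions, eta-quotients and
all sections `∑ p(m n + r) X ^ n` (library `Y627.PT`).

Method. The Liouville theorem relative to `F_2(X, D)`, `D = X / P ^ 24`, of the library
(`Y627.PT.lf`) and the lemma `V11172.PT.run_rel`: a long run makes the truncation of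
`(1 + X) ∑ c_j(X) f_j` an approximation which is so good that it is exact.
-/

namespace Pool.Agent.Results.MP_ebc808_nt.LongRuns

open PowerSeries

/-- the generating function of the number of partitions modulo 2 -/
noncomputable def P : (ZMod 2)⟦X⟧ :=
  PowerSeries.mk fun n => (Fintype.card (Nat.Partition n) : ZMod 2)

/-- the substitution `G(X, Y) ↦ G(X, P)` of polynomials over `F_2` -/
noncomputable def evP : Polynomial (Polynomial (ZMod 2)) →+* (ZMod 2)⟦X⟧ :=
  Polynomial.eval₂RingHom Polynomial.coeToPowerSeries.ringHom P

/-- `f` is algebraic over `F_2(X, P)`: it is a root of a nonzero polynomial with coefficients in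
`F_2[X, P]` -/
def IsAlgXP (f : (ZMod 2)⟦X⟧) : Prop :=
  ∃ G : Polynomial (Polynomial (Polynomial (ZMod 2))), G.map evP ≠ 0 ∧ (G.map evP).eval f = 0

theorem result (k : ℕ) (f : Fin k → (ZMod 2)⟦X⟧) (hf : ∀ j, IsAlgXP (f j)) :
    ∃ C : ℕ, ∀ (L : ℕ) (c : Fin k → Fin (L + 1) → ZMod 2) (κ : ZMod 2) (A : ℕ),
      (∀ n, A ≤ n → n ≤ C * (A + L + 1) →
        ∑ j, ∑ i : Fin (L + 1), c j i * coeff (n + i) (f j) = κ) →
      ∀ n, A ≤ n → ∑ j, ∑ i : Fin (L + 1), c j i * coeff (n + i) (f j) = κ :=
  Pool.Agent.V11172.PT.runsP f hf

end Pool.Agent.Results.MP_ebc808_nt.LongRuns
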