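import Pool.Agent.V11172.PT.Odd2

set_option autoImplicit false

/-!
# Odd values of linear patterns of the partition function (MP_ebc808_nt)

Let `s(n) = ∑_{l ≤ L} c_l p(n + l)` be a linear pattern modulo 2, not all `c_l = 0`. For every
`ε > 0` and all large `x`, at least `x ^ (1 / 2 - ε)` of the integers `n ≤ x` satisfy `s(n) = 1`.

Method. Let `Q = c(X) P`, a series whose coefficients are the values `s(n)`. For `N > L` the sum of
the coefficients of `Q` at `N - g`, `g` the generalised pentagonal numbers, is even. So if the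
coefficient at `N_0` is odd (`N_0` exists by the transcendence of `P`), then for every `j` there is
another odd coefficient at some `N' = N_0 + g_j - g_{j'}`. As `2 (g_j - g_{j'}) =
(j - j') (3 (j + j') - 1)`, each `N'` occurs for at most `2 τ(2 |N' - N_0|)` of the `j`.
-/

namespace Pool.Agent.Results.MP_ebc808_nt.OddPatterns

theorem result (L : ℕ) (c : Fin (L + 1) → ZMod 2) (hc : c ≠ 0) (ε : ℝ) (hε : 0 < ε) :
    ∃ x0 : ℕ, ∀ x : ℕ, x0 ≤ x → (x : ℝ) ^ (1 / 2 - ε) ≤
      (((Finset.range (x + 1)).filter fun n =>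
        ∑ l : Fin (L + 1), c l * (Fintype.card (Nat.Partition (n + l)) : ZMod 2) = 1).card : ℝ) := by
  obtain ⟨x0, h0⟩ := Pool.Agent.V11172.PT.main_odd c hc ε hε
  have h : ∀ n : ℕ, ∑ l : Fin (L + 1), c l * (Fintype.card (Nat.Partition (n + l)) : ZMod 2) =
      ∑ l : Fin (L + 1), c l * PowerSeries.coeff (n + l) Pool.Agent.TH693.PP.P := by
    intro n
    refine Finset.sum_congr rfl fun l _ => ?_
    rw [Pool.Agent.TH693.PP.P, PowerSeries.coeff_mk]
  refine ⟨x0, fun x hx => ?_⟩
  simp only [h]
  exact h0 x hx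

end Pool.Agent.Results.MP_ebc808_nt.OddPatterns
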