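import Pool.Agent.V11172.PT.Theta

set_option autoImplicit false

/-!
# The parity of the partition function and representation numbers of quadratic forms (MP_ebc808_nt)

Let `R_1, …, R_k` be representation numbers of positive definite diagonal quadratic forms in any
number of variables: `R(n)` is the number of `x` with `∑ a_i x_i ^ 2 = n` and `x_i ≥ l_i` (for
instance `l_i = 0` or `1`; with one variable, `a = 1`, this is the indicator of the squares). There is
a constant `C` such that every linear combination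

  `∑_{i ≤ L} c(i) p(n + i) + ∑_j ∑_{i ≤ L} b(j, i) R_j(n + i)`

modulo 2 with some `c(i) ≠ 0` takes both values in every interval `[A, C (A + L + 1)]`.

Method. Let `D = X ∏ (1 - X ^ n) ^ 24 = ∑ X ^ ((2 n + 1) ^ 2)` modulo 2 and `K` the algebraic closure
of `F_2(D)`. The series `θ = ∑_{x ≥ 1} X ^ (x ^ 2)` satisfies `θ + θ ^ 4 = D`, and by the library
theorem `Y627.PT.exD_all` (Hecke operators) `θ(X ^ a)` is in `K` for all `a`; hence the generating
functions of the `R_j` are in `K[X]`. The partition generating function is `X ^ (1 / 24)` times an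
element of `K`, and `X` is transcendental over `K`; this separates it from `K[X]`. A run of equal
values on `[A, C (A + L + 1)]` would give an exact linear relation over `F_2[X]`, by the Liouville
theorem relative to `F_2(X, D)` of the library (`Y627.PT.lf`).
-/

namespace Pool.Agent.Results.MP_ebc808_nt.QuadraticForms

/-- the number of representations of `n` by `∑ a_i x_i ^ 2` with integers `x_i ≥ l_i` -/
noncomputable def reps {m : ℕ} (a l : Fin m → ℕ) (n : ℕ) : ℕ :=
  Set.ncard {x : Fin m → ℕ | (∀ i, l i ≤ x i) ∧ ∑ i, a i * x i ^ 2 = n}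

theorem result (k : ℕ) (m : Fin k → ℕ) (a l : ∀ j, Fin (m j) → ℕ) (ha : ∀ j i, 0 < a j i) :
    ∃ C : ℕ, ∀ (L : ℕ) (c : Fin (L + 1) → ZMod 2), c ≠ 0 →
      ∀ (b : Fin k → Fin (L + 1) → ZMod 2) (κ : ZMod 2) (A : ℕ), ∃ n, A ≤ n ∧ n ≤ C * (A + L + 1) ∧
        ∑ i : Fin (L + 1), c i * (Fintype.card (Nat.Partition (n + i)) : ZMod 2) +
          ∑ j, ∑ i : Fin (L + 1), b j i * (reps (a j) (l j) (n + i) : ZMod 2) = κ := by
  obtain ⟨C, hC⟩ := Pool.Agent.V11172.PT.forms {1} (by simp) k m a l fun j i => (ha j i).ne'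
  refine ⟨C, fun L c hc b κ A => ?_⟩
  obtain ⟨n, h1, h2, h3⟩ := hC L (fun _ => c) b ⟨1, by simp, hc⟩ κ A
  refine ⟨n, h1, h2, ?_⟩
  rw [Finset.sum_singleton, pow_one] at h3
  rw [← h3]
  congr 1
  refine Finset.sum_congr rfl fun i _ => ?_
  rw [Pool.Agent.TH693.PP.P, PowerSeries.coeff_mk]

end Pool.Agent.Results.MP_ebc808_nt.QuadraticForms
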